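import Pool.Agent.W8.LS.Stm

namespace Pool.Agent.W755.LS

open Pool.Agent.W8.LS

theorem DomOpen_proof : DomOpen := by
  intro i
  cases i with
  | reg O h => exact h.1
  | A k l m r s c =>
      show IsOpen (UA s c)
      unfold UA
      have h1 : Continuous fun Q : V => |Q.1 - s| := by fun_prop
      have h2 : Continuous fun Q : V => |Q.2.1 - c| := by fun_prop
      have h3 : Continuous fun Q : V => ‖Q.2.2.1‖ * (1 + ‖Q.2.2.2‖ ^ 2) := by fun_prop
      exact (isOpen_lt h1 continuous_const).inter
        ((isOpen_lt h2 continuous_const).inter (isOpen_lt h3 continuous_const))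
  | B k l m r s c =>
      show IsOpen (UB s c)
      unfold UB
      have h1 : Continuous fun Q : V => |Q.1 - s| := by fun_prop
      have h2 : Continuous fun Q : V => |Q.2.1 - c| := by fun_prop
      have h3 : Continuous fun Q : V => ‖Q.2.2.2‖ * (1 + ‖Q.2.2.1‖ ^ 2) := by fun_prop
      exact (isOpen_lt h1 continuous_const).inter
        ((isOpen_lt h2 continuous_const).inter (isOpen_lt h3 continuous_const))

end Pool.Agent.W755.LS
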