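import Pool.Agent.W8.LS.Stm

open scoped Topology

namespace Pool.Agent.W755.LS

open Pool.Agent.W8.LS

theorem glue_isOpen_image {X Y J : Type} [TopologicalSpace Y] (U : J → Set Y) (f : J → Y → X)
    (hT : ∀ i j x y, x ∈ U i → y ∈ U j → f i x = f j y →
      ∃ τ : Y → Y, τ x = y ∧ ContinuousAt τ x ∧ ∀ᶠ z in 𝓝 x, f j (τ z) = f i z)
    (i : J) (W : Set Y) (hW : IsOpen W) (hWU : W ⊆ U i) :
    IsOpen[glueTop U f] (f i '' W) := by
  unfold glueTop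
  rw [isOpen_iSup_iff]
  intro j
  rw [isOpen_coinduced, isOpen_iff_mem_nhds]
  rintro ⟨x, hx⟩ hx'
  obtain ⟨y, hy, hxy⟩ := hx'
  obtain ⟨τ, h1, h2, h3⟩ := hT j i x y hx (hWU hy) hxy.symm
  have h4 : ∀ᶠ z in 𝓝 x, τ z ∈ W := h2.eventually_mem (by rw [h1]; exact hW.mem_nhds hy)
  have h5 : ∀ᶠ z in 𝓝 x, f j z ∈ f i '' W := by
    filter_upwards [h3, h4] with z hz hz'
    exact ⟨τ z, hz', hz⟩
  have h6 : Filter.Tendsto (Subtype.val : U j → Y) (𝓝 ⟨x, hx⟩) (𝓝 x) :=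
    continuous_subtype_val.continuousAt
  exact h6.eventually h5

theorem GlueT2_proof : GlueT2 := by
  intro X Y J _ U f hU _ hT hS
  letI : TopologicalSpace X := glueTop U f
  refine ⟨fun p q hpq => ?_⟩
  obtain ⟨i, j, x, y, hx, hy, hxp, hyq, O, hO, O', hO', hsep⟩ := hS p q hpq
  refine ⟨f i '' (interior O ∩ U i), f j '' (interior O' ∩ U j), ?_, ?_, ?_, ?_, ?_⟩
  · exact glue_isOpen_image U f hT i _ (isOpen_interior.inter (hU i)) Set.inter_subset_right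
  · exact glue_isOpen_image U f hT j _ (isOpen_interior.inter (hU j)) Set.inter_subset_right
  · exact ⟨x, ⟨mem_interior_iff_mem_nhds.2 hO, hx⟩, hxp⟩
  · exact ⟨y, ⟨mem_interior_iff_mem_nhds.2 hO', hy⟩, hyq⟩
  · rw [Set.disjoint_left]
    rintro _ ⟨z, hz, rfl⟩ ⟨z', hz', he⟩
    exact hsep z (interior_subset hz.1) z' (interior_subset hz'.1) hz.2 hz'.2 he.symm

end Pool.Agent.W755.LS
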