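import Pool.Agent.W8.LS.Stm

namespace Pool.Agent.W755.LS

open Pool.Agent.W8.LS

theorem PhiRay_proof : PhiRay := by
  intro _ G N p t ht
  obtain ⟨a, b⟩ := p
  have ht' : (t : ℂ) ≠ 0 := by exact_mod_cast ht.ne'
  have e1 : (t • ((a, b) : ℂ × ℂ)).1 = (t : ℂ) * a := by simp
  have e2 : (t • ((a, b) : ℂ × ℂ)).2 = (t : ℂ) * b := by simp
  have n1 : ‖(t : ℂ) * a‖ = t * ‖a‖ := by
    rw [norm_mul, Complex.norm_real, Real.norm_eq_abs, abs_of_pos ht]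
  have n2 : ‖(t : ℂ) * b‖ = t * ‖b‖ := by
    rw [norm_mul, Complex.norm_real, Real.norm_eq_abs, abs_of_pos ht]
  have hc : (‖(t : ℂ) * b‖ ≤ ‖(t : ℂ) * a‖) ↔ (‖b‖ ≤ ‖a‖) := by
    rw [n1, n2]
    exact mul_le_mul_iff_right₀ ht
  have q1 : (t : ℂ) * b / ((t : ℂ) * a) = b / a := mul_div_mul_left _ _ ht'
  have q2 : (t : ℂ) * a / ((t : ℂ) * b) = a / b := mul_div_mul_left _ _ ht'
  have a1 : Complex.arg ((t : ℂ) * a) = Complex.arg a := Complex.arg_real_mul _ ht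
  have a2 : Complex.arg ((t : ℂ) * b) = Complex.arg b := Complex.arg_real_mul _ ht
  unfold phi
  rw [e1, e2]
  simp only [hc, q1, q2, a1, a2]

end Pool.Agent.W755.LS
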